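import Pool.Agent.H811R4.SD.All
import Pool.Agent.H811R4.SD.Conv

/-! A II₁ factor in which every nonamenable von Neumann subalgebra (not only every nonamenable
subfactor) has a nondiffuse relative commutant is `ω`-solid, for every free ultrafilter `ω`. -/

set_option autoImplicit false

open Pool.Agent.Helper278 Pool.Agent.H811R4.SolidStmt

namespace Pool.Agent.Results.MP_7c16f6_an.SolidForAllSubalgebras

theorem result {H : Type} [NormedAddCommGroup H] [InnerProductSpace ℂ H] [CompleteSpace H]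
    (M : VonNeumannAlgebra H) (τ : Elt M → ℂ) (hM : IsIIOneFactor M τ) (hs : IsSolid M τ)
    (ω : Ultrafilter ℕ) (hω : ∀ n, {n} ∉ ω) (N : VonNeumannAlgebra H) (h : ∀ x ∈ N, x ∈ M)
    (_ : HasTrivialCenter N) (hN : ¬ IsAmenable (restr τ h)) :
    ¬ UCommDiffuse τ ω (elts M N) := by
  intro hd
  exact hN ((H811R4.SD.usolid_iff' M τ ω).2 ((H811R4.SD.solid_iff H811R4.SD.pBACK H811R4.SD.pFWD
    M τ hM ω hω).1 ((H811R4.SD.solid_iff' M τ).1 hs)) N h hd)

end Pool.Agent.Results.MP_7c16f6_an.SolidForAllSubalgebras
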